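import Pool.Agent.N242.PC.Stm

/-!
# Project PC (helper242): the main theorem
-/

set_option autoImplicit false

open Metric Set Filter Topology

namespace Pool.Agent.N242.PC

open Pool.Agent.N242.NT

universe u

section

variable {X : Type u} [NormedAddCommGroup X] [NormedSpace ℝ X]

omit [NormedSpace ℝ X] in
theorem singT_closed (𝒯 : Set (Set X)) : IsClosed {x | SingT 𝒯 x} := by
  rw [← isOpen_compl_iff, Metric.isOpen_iff]
  intro x hx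
  have hx' : ¬ SingT 𝒯 x := hx
  unfold SingT at hx'
  push Not at hx'
  obtain ⟨ρ, hρ, hf⟩ := hx'
  refine ⟨ρ / 2, by linarith, fun y hy hs => ?_⟩
  have hs' : SingT 𝒯 y := hs
  refine hs' (ρ / 2) (by linarith) (hf.subset ?_)
  rintro T ⟨hT, p, hpT, hp⟩
  refine ⟨hT, p, hpT, ?_⟩
  rw [mem_ball] at hy hp ⊢
  linarith [dist_triangle p y x]

end

/-- **The main theorem**: `𝒟 T` is any set of points of `T` of weak-to-norm continuity. -/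
theorem main (h1 : S_FLT.{u}) (h2 : S_EXT.{u}) (h3 : S_BDT.{u})
    (X : Type u) [NormedAddCommGroup X] [NormedSpace ℝ X] [CompleteSpace X] (hK : KMP X)
    (hinf : ¬ FiniteDimensional ℝ X) (𝒯 : Set (Set X)) (hT : CTiling 𝒯) (hc : 𝒯.Countable)
    (hPC : ∀ T ∈ 𝒯, frontier T ⊆ closure {y | y ∈ T ∧ IsPC T y}) : False := by
  have hsing : ∀ T ∈ 𝒯, ∀ z ∈ T, ¬ Flat T z → SingT 𝒯 z := fun T hTT z hz hf =>
    by_contra fun hs => hf (h1 X 𝒯 hT T hTT z hz hs)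
  obtain ⟨T₁, hT₁, -⟩ : ∃ T ∈ 𝒯, (0 : X) ∈ T := by
    have h : (0 : X) ∈ ⋃₀ 𝒯 := by rw [hT.cov]; trivial
    exact h
  have hne : {x | SingT 𝒯 x}.Nonempty := by
    obtain ⟨y, hy⟩ := hT.int T₁ hT₁
    obtain ⟨z, hz, -, hzf⟩ := h2 X hK hinf T₁ (hT.closed T₁ hT₁) (hT.bdd T₁ hT₁)
      (hT.convex T₁ hT₁) y (interior_subset hy) ∅
    exact ⟨z, hsing T₁ hT₁ z hz hzf⟩
  have : CompleteSpace {x | SingT 𝒯 x} := (singT_closed 𝒯).completeSpace_coe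
  have : Nonempty {x | SingT 𝒯 x} := hne.to_subtype
  have : Countable 𝒯 := hc.to_subtype
  obtain ⟨⟨T₀, hT₀⟩, hn⟩ := nonempty_interior_of_iUnion_of_closed (X := {x | SingT 𝒯 x})
    (f := fun T : 𝒯 => Subtype.val ⁻¹' (T : Set X))
    (fun T => (hT.closed T T.2).preimage continuous_subtype_val) (by
      rw [Set.eq_univ_iff_forall]
      rintro ⟨x, hx⟩
      have h : x ∈ ⋃₀ 𝒯 := by rw [hT.cov]; trivial
      obtain ⟨T, hTT, hxT⟩ := h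
      exact Set.mem_iUnion.2 ⟨⟨T, hTT⟩, hxT⟩)
  obtain ⟨⟨q, hq⟩, hqi⟩ := hn
  rw [mem_interior_iff_mem_nhds, Metric.mem_nhds_iff] at hqi
  obtain ⟨ρ, hρ, hρ'⟩ := hqi
  have hball : ∀ x, SingT 𝒯 x → ‖x - q‖ < ρ → x ∈ T₀ := by
    intro x hx hxq
    have h5 : (⟨x, hx⟩ : {x | SingT 𝒯 x}) ∈ Metric.ball (⟨q, hq⟩ : {x | SingT 𝒯 x}) ρ := by
      rw [mem_ball, Subtype.dist_eq, dist_eq_norm]
      exact hxq
    exact hρ' h5
  have hqT : q ∈ T₀ := hball q hq (by rw [sub_self, norm_zero]; exact hρ)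
  obtain ⟨T, hTT, y, hyT, hyq, hy0⟩ := h3 X 𝒯 hT T₀ hT₀ q hqT hq (ρ / 2) (by linarith)
  -- a ball around `y` disjoint from `T₀`
  obtain ⟨ε, hε, hεT⟩ : ∃ ε > 0, ∀ z, ‖z - y‖ < ε → z ∉ T₀ := by
    have h5 : T₀ᶜ ∈ 𝓝 y := (hT.closed T₀ hT₀).isOpen_compl.mem_nhds hy0
    obtain ⟨ε, hε, h6⟩ := Metric.mem_nhds_iff.1 h5
    refine ⟨ε, hε, fun z hz => h6 ?_⟩
    rw [mem_ball, dist_eq_norm]
    exact hz
  obtain ⟨ε', hε'd⟩ : ∃ ε' : ℝ, ε' = min (ε / 2) (ρ / 4) := ⟨_, rfl⟩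
  have hε' : 0 < ε' := by rw [hε'd]; positivity
  have hε'1 : ε' ≤ ε / 2 := by rw [hε'd]; exact min_le_left _ _
  have hε'2 : ε' ≤ ρ / 4 := by rw [hε'd]; exact min_le_right _ _
  obtain ⟨y', ⟨hy'T, hy'PC⟩, hyy'⟩ := Metric.mem_closure_iff.1 (hPC T hTT hyT) ε' hε'
  obtain ⟨F, η, hη, hFη⟩ := hy'PC ε' hε'
  obtain ⟨z, hz, hzF, hzf⟩ := h2 X hK hinf T (hT.closed T hTT) (hT.bdd T hTT)
    (hT.convex T hTT) y' hy'T F
  have hzy' : ‖z - y'‖ < ε' := hFη z hz fun f hf => by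
    rw [hzF f hf, sub_self, abs_zero]
    exact hη
  have hzy : ‖z - y‖ < 2 * ε' := by
    have h5 : ‖z - y‖ ≤ ‖z - y'‖ + ‖y' - y‖ := norm_sub_le_norm_sub_add_norm_sub _ _ _
    rw [dist_eq_norm, norm_sub_rev] at hyy'
    linarith
  refine hεT z (by linarith) (hball z (hsing T hTT z hz hzf) ?_)
  have h5 : ‖z - q‖ ≤ ‖z - y‖ + ‖y - q‖ := norm_sub_le_norm_sub_add_norm_sub _ _ _
  linarith

end Pool.Agent.N242.PC
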