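import Mathlib
import Pool.Agent.N242.NT.Stm

/-!
# Project PC (helper242), MP_3191e9_an

Separable (reflexive) Banach spaces have no tilings by bounded convex bodies whose points of
weak-to-norm continuity are dense in the boundary.
-/

set_option autoImplicit false

open Metric Set Filter Topology

namespace Pool.Agent.N242.PC

open Pool.Agent.N242.NT

universe u

section defs

variable {X : Type u} [NormedAddCommGroup X] [NormedSpace ℝ X]

/-- `𝒯` is a tiling by bounded convex bodies. -/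
structure CTiling (𝒯 : Set (Set X)) : Prop where
  closed : ∀ T ∈ 𝒯, IsClosed T
  convex : ∀ T ∈ 𝒯, Convex ℝ T
  bdd : ∀ T ∈ 𝒯, Bornology.IsBounded T
  int : ∀ T ∈ 𝒯, (interior T).Nonempty
  cov : ⋃₀ 𝒯 = univ
  dis : 𝒯.Pairwise fun S T => Disjoint (interior S) (interior T)

/-- The point `x` is singular: every neighbourhood meets infinitely many tiles. -/
def SingT (𝒯 : Set (Set X)) (x : X) : Prop :=
  ∀ ρ > 0, {T | T ∈ 𝒯 ∧ (T ∩ ball x ρ).Nonempty}.Infinite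

/-- The set `T` is flat at `z` in finite codimension. -/
def Flat (T : Set X) (z : X) : Prop :=
  ∃ (F : Finset (X →L[ℝ] ℝ)) (ε : ℝ), 0 < ε ∧ ∀ v, (∀ f ∈ F, f v = 0) → ‖v‖ ≤ ε → z + v ∈ T

/-- The weak and the norm topology of `T` coincide at `y`. -/
def IsPC (T : Set X) (y : X) : Prop :=
  ∀ ε > 0, ∃ (F : Finset (X →L[ℝ] ℝ)) (η : ℝ), 0 < η ∧
    ∀ z ∈ T, (∀ f ∈ F, |f z - f y| < η) → ‖z - y‖ < ε

end defs

/-- (SET) Two tiles are separated by a functional, strictly on the interiors. -/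
def S_SET : Prop :=
  ∀ (X : Type u) [NormedAddCommGroup X] [NormedSpace ℝ X] (𝒯 : Set (Set X)), CTiling 𝒯 →
    ∀ S ∈ 𝒯, ∀ T ∈ 𝒯, S ≠ T → ∃ (f : X →L[ℝ] ℝ) (β : ℝ),
      (∀ x ∈ S, f x ≤ β) ∧ (∀ x ∈ T, β ≤ f x) ∧
      (∀ x ∈ interior S, f x < β) ∧ (∀ x ∈ interior T, β < f x)

/-- (FLT) At a nonsingular point a tile is flat in finite codimension. -/
def S_FLT : Prop :=
  ∀ (X : Type u) [NormedAddCommGroup X] [NormedSpace ℝ X] (𝒯 : Set (Set X)), CTiling 𝒯 →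
    ∀ T ∈ 𝒯, ∀ z ∈ T, ¬ SingT 𝒯 z → Flat T z

/-- (EXT) A closed bounded convex set has a point with prescribed values of finitely many
functionals at which it is not flat. -/
def S_EXT : Prop :=
  ∀ (X : Type u) [NormedAddCommGroup X] [NormedSpace ℝ X], KMP X → ¬ FiniteDimensional ℝ X →
    ∀ T : Set X, IsClosed T → Bornology.IsBounded T → Convex ℝ T → ∀ y ∈ T,
    ∀ F : Finset (X →L[ℝ] ℝ), ∃ z ∈ T, (∀ f ∈ F, f z = f y) ∧ ¬ Flat T z

/-- (BDT) Near a singular point `x` of the tile `T₀` there is a boundary point of another tile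
outside of `T₀`. -/
def S_BDT : Prop :=
  ∀ (X : Type u) [NormedAddCommGroup X] [NormedSpace ℝ X] (𝒯 : Set (Set X)), CTiling 𝒯 →
    ∀ T₀ ∈ 𝒯, ∀ x ∈ T₀, SingT 𝒯 x → ∀ ρ > 0,
    ∃ T ∈ 𝒯, ∃ y ∈ frontier T, ‖y - x‖ < ρ ∧ y ∉ T₀

/-- (MAI) The main theorem. -/
def S_MAI : Prop :=
  ∀ (X : Type u) [NormedAddCommGroup X] [NormedSpace ℝ X] [CompleteSpace X], KMP X →
    ¬ FiniteDimensional ℝ X → ∀ 𝒯 : Set (Set X), CTiling 𝒯 → 𝒯.Countable →
    ¬ ∀ T ∈ 𝒯, frontier T ⊆ closure {y | IsPC T y}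

end Pool.Agent.N242.PC
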